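import Mathlib
import Pool.Agent.W232.FC.Stm

/-!
# Number of prime ideals above a positive integer
-/

open NumberField

namespace Pool.Agent.W308.FC.PRM

theorem main (h : Pool.Agent.W232.FC.S_IDL) : Pool.Agent.W232.FC.S_PRM := by
  intro K _ _ ρ T hρ hT P hP
  classical
  set D := Module.finrank ℚ K with hD
  have hsplit : (P.filter fun p => Ideal.absNorm p ≤ T).card +
      (P.filter fun p => ¬ Ideal.absNorm p ≤ T).card = P.card :=
    Finset.card_filter_add_card_filter_not _
  have h1 : (P.filter fun p => Ideal.absNorm p ≤ T).card ≤ T ^ (D + 1) := by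
    apply h K T
    intro J hJ
    rw [Finset.mem_filter] at hJ
    exact ⟨(hP J hJ.1).2.1, hJ.2⟩
  set P2 := P.filter fun p => ¬ Ideal.absNorm p ≤ T with hP2
  have hprime : ∀ p ∈ P2, Prime p := by
    intro p hp
    have := hP p (Finset.mem_filter.1 hp).1
    exact Ideal.prime_of_isPrime this.2.1 this.1
  have hdvd : ∏ p ∈ P2, p ∣ Ideal.span {(ρ : 𝓞 K)} := by
    apply Finset.prod_primes_dvd _ hprime
    intro p hp
    have := hP p (Finset.mem_filter.1 hp).1
    exact Ideal.dvd_span_singleton.2 this.2.2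
  have hn : ∏ p ∈ P2, Ideal.absNorm p ∣ ρ ^ D := by
    have h2 := map_dvd Ideal.absNorm hdvd
    rw [map_prod, Ideal.absNorm_span_natCast, RingOfIntegers.rank] at h2
    exact h2
  have hle : T ^ P2.card ≤ ρ ^ D := by
    refine le_trans ?_ (Nat.le_of_dvd (by positivity) hn)
    rw [← Finset.prod_const]
    apply Finset.prod_le_prod'
    intro p hp
    have := (Finset.mem_filter.1 hp).2
    omega
  have hlogT : 0 < Real.log T := Real.log_pos (by exact_mod_cast (by omega : 1 < T))
  have h4 : (P2.card : ℝ) * Real.log T ≤ D * Real.log ρ := by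
    rw [← Real.log_pow, ← Real.log_pow]
    apply Real.log_le_log (by positivity)
    exact_mod_cast hle
  have h5 : (P2.card : ℝ) ≤ D * Real.log ρ / Real.log T := by
    rw [le_div_iff₀ hlogT]; exact h4
  rw [← hsplit]
  push_cast
  have h1' : ((P.filter fun p => Ideal.absNorm p ≤ T).card : ℝ) ≤ (T : ℝ) ^ (D + 1) := by
    exact_mod_cast h1
  linarith

end Pool.Agent.W308.FC.PRM
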